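import Pool.Agent.Helper4.CB.Defs

/-!
# CB, T-TRI, piece F3: the start

For a finite set `S` of elements of `K` and a bound `B` all places `p` with
`nm p = 1` modulo `2 ^ J`, `J` large, have norm larger than `B` and every nonzero element of `S` is
a unit at `p`.
-/

set_option autoImplicit false

namespace Pool.Agent.Helper43.CB

open NumberField Pool.Agent.Helper4.CB

/-- **F3 (start).** -/
theorem start (K : Type) [Field K] [NumberField K] (S : Finset K) (B : ℕ) :
    ∃ J0 : ℕ, ∀ J, J0 ≤ J → ∀ p : Pl K, nm p ≡ 1 [MOD 2 ^ J] →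
      B < nm p ∧ ∀ x ∈ S, x ≠ 0 → p.valuation K x = 1 := by
  classical
  -- the places at which some element of `S` is not a unit
  have hfin : ({p : Pl K | ∃ x ∈ S, x ≠ 0 ∧ p.valuation K x ≠ 1}).Finite := by
    have h1 : {p : Pl K | ∃ x ∈ S, x ≠ 0 ∧ p.valuation K x ≠ 1} ⊆
        ⋃ x ∈ S, (IsDedekindDomain.HeightOneSpectrum.Support (𝓞 K) x ∪
          IsDedekindDomain.HeightOneSpectrum.Support (𝓞 K) x⁻¹) := by
      rintro p ⟨x, hx, hx0, hxp⟩
      simp only [Set.mem_iUnion]
      refine ⟨x, hx, ?_⟩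
      rcases lt_or_gt_of_ne hxp with h | h
      · right
        show (1 : _) < p.valuation K x⁻¹
        rw [map_inv₀]
        exact (one_lt_inv₀ ((Valuation.pos_iff _).2 hx0)).2 h
      · left
        exact h
    refine Set.Finite.subset (Set.Finite.biUnion S.finite_toSet fun x _ => ?_) h1
    exact (IsDedekindDomain.HeightOneSpectrum.Support.finite (𝓞 K) x).union
      (IsDedekindDomain.HeightOneSpectrum.Support.finite (𝓞 K) x⁻¹)
  set N : ℕ := ∑ p ∈ hfin.toFinset, nm p with hN
  refine ⟨B + N, fun J hJ p hp => ?_⟩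
  have h2 : 2 ≤ nm p := two_le_nm p
  have hlt : J < nm p := by
    have h3 : 2 ^ J ∣ nm p - 1 := (Nat.modEq_iff_dvd' (by omega)).1 hp.symm
    have h4 : 2 ^ J ≤ nm p - 1 := Nat.le_of_dvd (by omega) h3
    have h5 : J < 2 ^ J := Nat.lt_two_pow_self
    omega
  refine ⟨by omega, fun x hx hx0 => ?_⟩
  by_contra hne
  have hmem : p ∈ hfin.toFinset := by
    rw [Set.Finite.mem_toFinset]
    exact ⟨x, hx, hx0, hne⟩
  have h6 : nm p ≤ N := Finset.single_le_sum (f := fun p : Pl K => nm p)
    (fun _ _ => Nat.zero_le _) hmem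
  omega

end Pool.Agent.Helper43.CB
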